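import Pool.Agent.P.MP_987dc0_co.Main

set_option autoImplicit false

namespace Pool.Agent.Results.MP_987dc0_co.LargeR

open Pool.Agent.P.MP_987dc0_co Filter Topology

/-- For every fixed `n ≥ 4` the minimum `m r` of the size of rank `n` over all `r`-differential
posets satisfies `Y r n - m r ~ r ^ (n - 3) / (3 (n - 4)!)` as `r → ∞`, where `Y r n` is the size
of rank `n` of the `r`-th power of Young's lattice. -/
theorem result (n : ℕ) (hn : 4 ≤ n) :
    ∃ m : ℕ → ℕ,
      (∀ r : ℕ, 1 ≤ r → IsLeast (sizes r n) (m r)) ∧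
      Tendsto (fun r : ℕ => ((Y r n : ℝ) - (m r : ℝ)) / (r : ℝ) ^ (n - 3)) atTop
        (𝓝 (1 / (3 * ((n - 4).factorial : ℝ)))) :=
  ⟨fun r => mm r n, fun r _ => mm_isLeast r n, mm_asymp n hn⟩

end Pool.Agent.Results.MP_987dc0_co.LargeR
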