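import Pool.Agent.P.MP_987dc0_co.Main

set_option autoImplicit false

namespace Pool.Agent.Results.MP_987dc0_co.RankFour

open Pool.Agent.P.MP_987dc0_co

/-- The minimum size of rank `4` over all `r`-differential posets is `Y r 4 - ⌊r / 3⌋`, where
`Y r 4` is the size of rank `4` of the `r`-th power of Young's lattice. -/
theorem result (r : ℕ) (hr : 1 ≤ r) :
    ∃ m : ℕ, IsLeast (sizes r 4) m ∧ m + r / 3 = Y r 4 :=
  ⟨mm r 4, mm_isLeast r 4, mm_four r hr⟩

end Pool.Agent.Results.MP_987dc0_co.RankFour
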